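import Mathlib
import Pool.Agent.Y90.Tori
import Pool.Agent.R915.Stm2

/-!
# Abelian varieties with many algebraically independent periods
-/

set_option autoImplicit false

namespace Pool.Agent.U228.MP

open Matrix Module Pool.Agent.Y90

/-- The principally polarised abelian variety `ℂ ^ g / (ℤ ^ g + Z ℤ ^ g)` has dimension `g ≤ ρ`, or some
`D` entries of the period matrix `Z` are algebraically independent over `ℚ`, where `4 D > g ^ 2` and
`4 D > (ρ + 1) ^ 2 + 2 (g - ρ - 1) (g - ρ)` (truncated subtraction). (The period matrix has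
`g (g + 1) / 2` independent entries at most.) -/
def ManyPeriods (ρ : ℕ) {g : ℕ} (Z : Matrix (Fin g) (Fin g) ℂ) : Prop :=
  g ≤ ρ ∨ ∃ (D : ℕ) (p : Fin D → Fin g × Fin g),
    AlgebraicIndependent ℚ (fun s => Z (p s).1 (p s).2) ∧ g ^ 2 < 4 * D ∧
      (ρ + 1) ^ 2 + 2 * (g - ρ - 1) * (g - ρ) < 4 * D

/-- The simple abelian variety `Y` is a factor of a principally polarised abelian variety with many
independent periods. -/
def FromManyPeriods (ρ : ℕ) (Y : AV) : Prop :=
  ∃ (g : ℕ) (Z : Matrix (Fin g) (Fin g) ℂ) (h : PM Z), ManyPeriods ρ Z ∧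
    Pool.Agent.R915.IsFactor Y (AVZ h)

end Pool.Agent.U228.MP
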