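import Pool.Agent.U228.MP.Ideal

/-!
# Pieces with the full symplectic Lie algebra, and the local conditions for the Lefschetz group
-/

set_option autoImplicit false
set_option linter.unusedSectionVars false

namespace Pool.Agent.U228.MP

open Matrix Module Pool.Agent.W437.HC Pool.Agent.W437.HD Pool.Agent.W437.HP Pool.Agent.W437.HR
  Pool.Agent.W548.Odd Pool.Agent.Y90

noncomputable section

variable {g : ℕ} {Z : Matrix (Fin g) (Fin g) ℂ}

section piece

variable {N : Submodule ℂ (Fin g ⊕ Fin g → ℂ)} {w : N →ₗ[ℂ] N →ₗ[ℂ] ℂ}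
  (hst : ∀ X ∈ lieM (DZ Z) ℂ, ∀ x ∈ N, X *ᵥ x ∈ N)

/-- The image of the generated Lie algebra on a piece is the full symplectic Lie algebra. -/
theorem full_LZ (h : PM Z) (hnt : Nontrivial N) (halt : ∀ x, w x x = 0)
    (hnd : ∀ x, (∀ y, w x y = 0) → x = 0) (hsp : ∀ X, IsSp w (rsN N hst X))
    (hful : ∀ x y, ∃ X, rsN N hst X = EE w x y) (x y : N) :
    ∃ X ∈ LZ Z, ∀ u : N, X *ᵥ (u : Fin g ⊕ Fin g → ℂ) = ((EE w x y u : N) : Fin g ⊕ Fin g → ℂ) := by
  let I : Submodule ℂ (Module.End ℂ N) :=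
    ((LZ Z).comap (lieM (DZ Z) ℂ).subtype).map (rsN N hst)
  have h1 := ideal_full (w := w) (ρ := rsN N hst) (br := brL (DZ Z)) halt hnd
    (rsN_brL N hst) hsp hful I ?_ (A := rsN N hst ⟨DZ Z, D_mem (DZ Z)⟩)
    ⟨⟨DZ Z, D_mem (DZ Z)⟩, DZ_mem, rfl⟩ (hsp _) ?_ x y
  · obtain ⟨X, hX, hX'⟩ := h1
    refine ⟨X.1, hX, fun u => ?_⟩
    rw [← hX', rsN_coe]
  · rintro X _ ⟨Y, hY, rfl⟩
    refine ⟨brL (DZ Z) X Y, ?_, rsN_brL N hst X Y⟩
    exact ideal_LZ h X.2 hY
  · intro h0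
    obtain ⟨z, hz⟩ := exists_ne (0 : N)
    apply hz
    apply Subtype.ext
    have h1 : (rsN N hst ⟨DZ Z, D_mem (DZ Z)⟩ (rsN N hst ⟨DZ Z, D_mem (DZ Z)⟩ z) :
        Fin g ⊕ Fin g → ℂ) = (z : Fin g ⊕ Fin g → ℂ) := by
      rw [rsN_coe, rsN_coe, mulVec_mulVec, DZ_sq h.det, one_mulVec]
    rw [← h1, h0]
    rfl

include hst in
/-- The piece is irreducible. -/
theorem irS_piece (hnt : Nontrivial N) (halt : ∀ x, w x x = 0)
    (hnd : ∀ x, (∀ y, w x y = 0) → x = 0)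
    (hful : ∀ x y : N, ∃ X ∈ LZ Z, ∀ u : N, X *ᵥ (u : Fin g ⊕ Fin g → ℂ) =
      ((EE w x y u : N) : Fin g ⊕ Fin g → ℂ)) : IrS (LZ Z) N := by
  have hskew : ∀ x y, w x y = -w y x := by
    intro x y
    have h1 := halt (x + y)
    simp only [map_add, LinearMap.add_apply, halt, zero_add, add_zero] at h1
    linear_combination h1
  refine ⟨?_, fun X hX u hu => hst X (LZ_le_lieM hX) u hu, fun W hW hWs => ?_⟩
  · rintro rfl
    obtain ⟨z, hz⟩ := exists_ne (0 : (⊥ : Submodule ℂ (Fin g ⊕ Fin g → ℂ)))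
    exact hz (Subsingleton.elim _ _)
  · by_cases hW0 : W = ⊥
    · exact Or.inl hW0
    right
    obtain ⟨w0, hw0, hne⟩ := Submodule.exists_mem_ne_zero_of_ne_bot hW0
    let v0 : N := ⟨w0, hW hw0⟩
    have hv0 : v0 ≠ 0 := fun h1 => hne (congrArg Subtype.val h1)
    obtain ⟨y, hy⟩ : ∃ y, w v0 y ≠ 0 := by
      by_contra hcon
      push Not at hcon
      exact hv0 (hnd v0 hcon)
    have key : ∀ x : N, w x v0 ≠ 0 → (x : Fin g ⊕ Fin g → ℂ) ∈ W := by
      intro x hx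
      obtain ⟨X, hX, hX'⟩ := hful x x
      have h1 := hWs X hX w0 hw0
      have h2 := hX' v0
      change X *ᵥ w0 = _ at h2
      rw [h2] at h1
      have h3 : ((EE w x x v0 : N) : Fin g ⊕ Fin g → ℂ) =
          (2 * w x v0) • (x : Fin g ⊕ Fin g → ℂ) := by
        rw [EE_apply]
        rw [Submodule.coe_add, Submodule.coe_smul]
        module
      rw [h3] at h1
      exact (Submodule.smul_mem_iff W (mul_ne_zero two_ne_zero hx)).1 h1
    refine le_antisymm hW fun x hx => ?_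
    by_cases hx0 : w (⟨x, hx⟩ : N) v0 = 0
    · have h1 : w y v0 ≠ 0 := by
        rw [hskew]
        exact neg_ne_zero.2 hy
      have h2 := key y h1
      have h3 := key (⟨x, hx⟩ + y) (by
        rw [map_add, LinearMap.add_apply, hx0, zero_add]
        exact h1)
      have h4 := Submodule.sub_mem W h3 h2
      have h5 : ((⟨x, hx⟩ + y : N) : Fin g ⊕ Fin g → ℂ) - (y : Fin g ⊕ Fin g → ℂ) = x := by
        rw [Submodule.coe_add]
        simp
      rwa [h5] at h4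
    · exact key ⟨x, hx⟩ hx0

/-- The dimension of the piece is at least two. -/
theorem two_le_piece (hnt : Nontrivial N) (halt : ∀ x, w x x = 0)
    (hnd : ∀ x, (∀ y, w x y = 0) → x = 0) : 2 ≤ finrank ℂ N := by
  obtain ⟨x, hx⟩ := exists_ne (0 : N)
  by_contra hcon
  have h1 : finrank ℂ N = 1 := by
    have h2 : 0 < finrank ℂ N := finrank_pos
    omega
  obtain ⟨c, hc⟩ := finrank_eq_one_iff'.1 h1
  apply hx
  refine hnd x fun y => ?_
  obtain ⟨a, ha⟩ := hc.2 x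
  obtain ⟨b, hb⟩ := hc.2 y
  rw [← ha, ← hb, map_smul, map_smul, LinearMap.smul_apply, halt]
  simp

end piece

/-- **The local conditions.** -/
theorem loc_of_pcs (h : PM Z) (hp : HasPcs (DZ Z)) (U : Submodule ℂ (Fin g ⊕ Fin g → ℂ))
    (hU : IrS (LZ Z) U) : Rk1 Z U ∧ 2 ≤ finrank ℂ U ∧ SDu Z U := by
  obtain ⟨A, _, _, N, w, π, hst, hsum, hnt, halt, hnd, hsp, hful, heq⟩ := hp
  obtain ⟨u0, hu0, hne⟩ := Submodule.exists_mem_ne_zero_of_ne_bot hU.1
  obtain ⟨a, ha⟩ : ∃ a, π a u0 ≠ 0 := by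
    by_contra hcon
    push Not at hcon
    apply hne
    rw [hsum u0]
    refine Finset.sum_eq_zero fun a _ => ?_
    rw [hcon a]
    rfl
  have hf := full_LZ (hst a) h (hnt a) (halt a) (hnd a) (hsp a) (hful a)
  have hN := irS_piece (hst a) (hnt a) (halt a) (hnd a) hf
  obtain ⟨T, hT⟩ : ∃ T : (Fin g ⊕ Fin g → ℂ) →ₗ[ℂ] (Fin g ⊕ Fin g → ℂ),
      ∀ v, T v = (π a v : Fin g ⊕ Fin g → ℂ) := ⟨(N a).subtype ∘ₗ π a, fun _ => rfl⟩
  have hTX : ∀ X ∈ LZ Z, ∀ u, T (X *ᵥ u) = X *ᵥ T u := by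
    intro X hX u
    rw [hT, hT]
    exact heq a X (LZ_le_lieM hX) u
  have hT0 : ∃ u ∈ U, T u ≠ 0 := ⟨u0, hu0, fun h1 => ha (Subtype.ext (by rw [← hT, h1]; rfl))⟩
  have hTN : ∀ u ∈ U, T u ∈ N a := fun u _ => by rw [hT]; exact (π a u).2
  have hmap : U.map T = N a := hU.map_eq hN (fun X hX u _ => hTX X hX u) hT0 hTN
  have hinj : ∀ u ∈ U, T u = 0 → u = 0 := hU.inj (fun X hX u _ => hTX X hX u) hT0
  have hskew : ∀ x y, w a x y = -w a y x := by
    intro x y
    have h1 := halt a (x + y)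
    simp only [map_add, LinearMap.add_apply, halt a, zero_add, add_zero] at h1
    linear_combination h1
  have hD2 : ∀ v : Fin g ⊕ Fin g → ℂ, DZ Z *ᵥ (DZ Z *ᵥ v) = v := by
    intro v
    rw [mulVec_mulVec, DZ_sq h.det, one_mulVec]
  have hDN : ∀ v ∈ N a, DZ Z *ᵥ v ∈ N a := fun v hv => hst a _ (D_mem (DZ Z)) v hv
  -- the operator on the piece
  let δ : Module.End ℂ (N a) := rsN (N a) (hst a) ⟨DZ Z, D_mem (DZ Z)⟩
  have hδ : ∀ v : N a, ((δ v : N a) : Fin g ⊕ Fin g → ℂ) = DZ Z *ᵥ (v : Fin g ⊕ Fin g → ℂ) :=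
    fun v => rfl
  have hδsp : ∀ x y, w a (δ x) y = -w a x (δ y) := fun x y => hsp a _ x y
  have hδ2 : ∀ x, δ (δ x) = x := fun x => Subtype.ext (by rw [hδ, hδ, hD2])
  obtain ⟨x, hx0, hx⟩ : ∃ x : N a, x ≠ 0 ∧ δ x = x := by
    by_contra hcon
    push Not at hcon
    have h1 : ∀ y, δ y = -y := by
      intro y
      have h2 : δ (y + δ y) = y + δ y := by rw [map_add, hδ2, add_comm]
      have h3 : y + δ y = 0 := by
        by_contra h4
        exact hcon _ h4 h2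
      exact eq_neg_of_add_eq_zero_right h3
    obtain ⟨z, hz⟩ := exists_ne (0 : N a)
    apply hz
    refine hnd a z fun y => ?_
    have h2 := hδsp z y
    rw [h1, h1, map_neg, map_neg, LinearMap.neg_apply, neg_neg] at h2
    have h3 : (2 : ℂ) * w a z y = 0 := by linear_combination -h2
    exact (mul_eq_zero.1 h3).resolve_left two_ne_zero
  refine ⟨⟨DZ Z, Or.inl rfl, ?_⟩, ?_, ?_⟩
  · -- rank one
    obtain ⟨X, hX, hX'⟩ := hf x x
    refine ⟨(1 / 4 : ℂ) • ((1 + DZ Z) * X * (1 - DZ Z)), up_mem h hX, up_l h X, up_r h X, ?_⟩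
    obtain ⟨M, hM⟩ : ∃ M, M = (1 / 4 : ℂ) • ((1 + DZ Z) * X * (1 - DZ Z)) := ⟨_, rfl⟩
    have hMm : M ∈ LZ Z := by rw [hM]; exact up_mem h hX
    rw [← hM]
    have hMv : ∀ u : N a, M *ᵥ (u : Fin g ⊕ Fin g → ℂ) =
        (2 * w a x u) • (x : Fin g ⊕ Fin g → ℂ) := by
      intro u
      have h1 : (1 - DZ Z) *ᵥ (u : Fin g ⊕ Fin g → ℂ) =
          ((u - δ u : N a) : Fin g ⊕ Fin g → ℂ) := by
        rw [sub_mulVec, one_mulVec, Submodule.coe_sub, hδ]
      have h2 : w a x (δ u) = -w a x u := by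
        have h3 := hδsp x u
        rw [hx] at h3
        linear_combination h3
      rw [hM, smul_mulVec, ← mulVec_mulVec, ← mulVec_mulVec, h1, hX', EE_apply, map_sub, h2,
        Submodule.coe_add, Submodule.coe_smul, add_mulVec, one_mulVec, mulVec_add, mulVec_smul,
        ← hδ, hx]
      module
    have hrk : (N a).map (mulVecLin M) = Submodule.span ℂ {(x : Fin g ⊕ Fin g → ℂ)} := by
      refine le_antisymm ?_ ?_
      · rintro _ ⟨u, hu, rfl⟩
        rw [mulVecLin_apply]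
        have h1 := hMv ⟨u, hu⟩
        change M *ᵥ u = _ at h1
        rw [h1]
        exact Submodule.smul_mem _ _ (Submodule.mem_span_singleton_self _)
      · rw [Submodule.span_singleton_le_iff_mem]
        obtain ⟨y, hy⟩ : ∃ y, w a x y ≠ 0 := by
          by_contra hcon
          push Not at hcon
          exact hx0 (hnd a x hcon)
        refine ⟨((2 * w a x y)⁻¹ • y : N a), (((2 * w a x y)⁻¹ • y : N a)).2, ?_⟩
        rw [mulVecLin_apply, hMv, map_smul, smul_eq_mul]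
        have h1 : 2 * ((2 * w a x y)⁻¹ * w a x y) = 1 := by
          have h2 : 2 * w a x y ≠ 0 := mul_ne_zero two_ne_zero hy
          rw [mul_left_comm, inv_mul_cancel₀ h2]
        rw [h1, one_smul]
    have h1 : (U.map (mulVecLin M)).map T = (N a).map (mulVecLin M) := by
      rw [← hmap, ← Submodule.map_comp, ← Submodule.map_comp]
      congr 1
      refine LinearMap.ext fun u => ?_
      exact hTX M hMm u
    have h2 : finrank ℂ ((U.map (mulVecLin M)).map T) = finrank ℂ (U.map (mulVecLin M)) := by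
      refine finrank_map_of_inj ?_
      rintro _ ⟨u, hu, rfl⟩ h3
      exact hinj _ (hU.2.1 M hMm u hu) h3
    rw [← h2, h1, hrk]
    refine finrank_span_singleton fun h3 => hx0 (Subtype.ext h3)
  · have h1 := finrank_map_of_inj hinj
    rw [← h1, hmap]
    exact two_le_piece (hnt a) (halt a) (hnd a)
  · refine ⟨((w a).compl₁₂ (π a) (π a)), ?_, ?_⟩
    · obtain ⟨y, hy⟩ : ∃ y, w a (π a u0) y ≠ 0 := by
        by_contra hcon
        push Not at hcon
        exact ha (hnd a _ hcon)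
      have h1 : (y : Fin g ⊕ Fin g → ℂ) ∈ U.map T := by rw [hmap]; exact y.2
      obtain ⟨v, hv, hvy⟩ := h1
      refine ⟨u0, hu0, v, hv, ?_⟩
      rw [LinearMap.compl₁₂_apply]
      have h2 : π a v = y := Subtype.ext (by rw [← hT, hvy])
      rw [h2]
      exact hy
    · intro X hX u _ v _
      rw [LinearMap.compl₁₂_apply, LinearMap.compl₁₂_apply]
      have h1 : ∀ v, π a (X *ᵥ v) = rsN (N a) (hst a) ⟨X, LZ_le_lieM hX⟩ (π a v) :=
        fun v => Subtype.ext (by rw [rsN_coe]; exact heq a X (LZ_le_lieM hX) v)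
      rw [h1, h1, hsp a ⟨X, LZ_le_lieM hX⟩]
      ring

end

end Pool.Agent.U228.MP
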