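import Mathlib
import Pool.Agent.U228.MP.Loc
import Pool.Agent.N994.FH.J
import Pool.Agent.N995.Facs
import Pool.Agent.X311.GhcPeriods

/-!
# The simple factors of an abelian variety with many independent periods
-/

set_option linter.unusedSectionVars false

namespace Pool.Agent.U228.MP

open Matrix Module Pool.Agent.W437.HC Pool.Agent.W437.HD Pool.Agent.Y90
open Pool.Agent.R915 Pool.Agent.N994.PG Pool.Agent.N994.FH
open Pool.Agent.N438.HX (exists_tr_ne tr_sdu)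
open Pool.Agent.W437.HR (HasPcs)
open Pool.Agent.W437.HP (cK cK_mul cK_one cK_sum)
open Pool.Agent.W548.Odd hiding cv
open Pool.Agent.N995 (Isg)
open Pool.Agent.X311 (Dec)

noncomputable section

/-- A simple abelian variety whose Hodge Lie algebra is a sum of symplectic Lie algebras in standard
representations has no complex multiplication, its Hodge group is the Lefschetz group, and imaginary
quadratic fields act with equal multiplicities. -/
theorem typ_of_pcs {G : ℕ} {Z : Matrix (Fin G) (Fin G) ℂ} (h : PM Z) (hs : IsSimpleAV Z)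
    (hG : 0 < G) (hp : HasPcs (DZ Z)) :
    ¬ HasCMult (AVZ h) ∧ FullHodge (AVZ h) ∧ ∀ d, ¬ Unbalanced (AVZ h) d := by
  have hloc := loc_of_pcs h hp
  obtain ⟨a, ha⟩ := exists_real h hs hG fun U hU => ⟨(hloc U hU).1, (hloc U hU).2.2⟩
  have : Nonempty (Fin G ⊕ Fin G) := ⟨Sum.inl ⟨0, hG⟩⟩
  obtain ⟨U, -, hU⟩ := exists_irS (L := LZ Z) _ (⊤ : Submodule ℂ (Fin G ⊕ Fin G → ℂ)) rfl
    top_ne_bot (fun X _ u _ => trivial)
  refine ⟨fun hcm => ?_, fullHodge h ha fun U hU => hloc U hU, fun d hd => ?_⟩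
  · have h3 := comm_of_cm h hs hG hcm
    have h4 := (hloc U hU).2.1
    have h5 := line_of_comm h3 hU
    omega
  · obtain ⟨-, ψ, -, -, U, hU, ht⟩ := exists_tr_ne h hd
    exact ht (tr_sdu h hU (hloc U hU).2.2)

/-- The three conditions are invariant under isogenies. -/
theorem typ_isg {X Y : AV} (h : Isg X Y) (hX : ¬ HasCMult X ∧ FullHodge X ∧
    ∀ d, ¬ Unbalanced X d) : ¬ HasCMult Y ∧ FullHodge Y ∧ ∀ d, ¬ Unbalanced Y d := by
  obtain ⟨e, h1, h2⟩ := h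
  refine ⟨fun h3 => hX.1 (h3.iso e h1 h2), IsIso.fullHodge (A := e) ⟨h1, h2⟩ hX.2.1, fun d hd => ?_⟩
  exact hX.2.2 d (hd.iso e h1)

section dec

variable {G : ℕ} {Z : Matrix (Fin G) (Fin G) ℂ} {ι : Type} [Fintype ι] [DecidableEq ι]
    {g : ι → ℕ} {Y : ∀ i, Matrix (Fin (g i)) (Fin (g i)) ℂ}
    {E : ∀ i, Matrix (Fin G ⊕ Fin G) (Fin (g i) ⊕ Fin (g i)) ℚ}
    {F : ∀ i, Matrix (Fin (g i) ⊕ Fin (g i)) (Fin G ⊕ Fin G) ℚ}

theorem dec_pm (d : Dec Z Y E F) (i : ι) : PM (Y i) := ⟨d.symmY i, d.posY i⟩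

theorem dec_simple (d : Dec Z Y E F) (i : ι) : IsSimple (AVZ (dec_pm d i)) :=
  simple_of (g i) (dec_pm d i) (d.simple i) (d.gpos i)

theorem dec_hE (h : PM Z) (d : Dec Z Y E F) (i : ι) :
    IsHom (AVZ (dec_pm d i)) (AVZ h) (Matrix.mulVecLin (E i)) := by
  obtain ⟨Ψ₁, h₁⟩ := (dec_pm d i).cht.hom h.cht (R := E i)
    (by rw [DJ_JR, DJ_JR]; exact (de_of_JR (d.EJ i)).symm)
  exact ⟨Ψ₁, fun v => h₁ v⟩

theorem dec_hF (h : PM Z) (d : Dec Z Y E F) (i : ι) :
    IsHom (AVZ h) (AVZ (dec_pm d i)) (Matrix.mulVecLin (F i)) := by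
  obtain ⟨Ψ₁, h₁⟩ := h.cht.hom (dec_pm d i).cht (R := F i)
    (by rw [DJ_JR, DJ_JR]; exact fd_of_JR (d.FJ i))
  exact ⟨Ψ₁, fun v => h₁ v⟩

/-- The simple factors are factors. -/
theorem dec_factor (h : PM Z) (d : Dec Z Y E F) (i : ι) : IsFactor (AVZ (dec_pm d i)) (AVZ h) := by
  refine ⟨dec_simple d i, Matrix.mulVecLin (E i), dec_hE h d i, ?_⟩
  intro x y hxy
  have e3 := congrArg (fun v => F i *ᵥ v) hxy
  simp only [Matrix.mulVecLin_apply] at e3
  rw [mulVec_mulVec, mulVec_mulVec, d.FE i, one_mulVec, one_mulVec] at e3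
  exact e3

/-- There are no other simple factors. -/
theorem factor_dec (h : PM Z) (d : Dec Z Y E F) {X : AV} (hX : IsFactor X (AVZ h)) :
    ∃ i, Isg X (AVZ (dec_pm d i)) := by
  obtain ⟨hXs, j, hj, hinj⟩ := hX
  obtain ⟨i, hi⟩ : ∃ i, (Matrix.mulVecLin (F i)).comp j ≠ 0 := by
    by_contra hcon
    push Not at hcon
    obtain ⟨y, hy⟩ := hXs.1
    refine hy (hinj ?_)
    rw [map_zero]
    have e1 : (∑ i, E i * F i) *ᵥ (j y) = 0 := by
      rw [sum_mulVec]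
      refine Finset.sum_eq_zero fun i _ => ?_
      rw [← mulVec_mulVec]
      have e2 : F i *ᵥ (j y) = 0 := congrArg (fun φ => φ y) (hcon i)
      rw [e2, mulVec_zero]
    rwa [d.tot, one_mulVec] at e1
  obtain ⟨e, he⟩ := iso_of_simple hXs (dec_simple d i) (IsHom.comp' (dec_hF h d i) hj) hi
  exact ⟨i, e, he⟩

end dec

end

end Pool.Agent.U228.MP
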