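import Mathlib
import Pool.Agent.U228.MP.Full
import Pool.Agent.U228.MP.Defs
import Pool.Agent.N178.HX.Parts

/-!
# The simple factors of an abelian variety with many independent periods: the theorem
-/

set_option linter.unusedSectionVars false

namespace Pool.Agent.U228.MP

open Matrix Module Pool.Agent.W437.HC Pool.Agent.W437.HD Pool.Agent.Y90
open Pool.Agent.R915 Pool.Agent.W437.HP Pool.Agent.TH504.CB Pool.Agent.X311
open Pool.Agent.TH504.VY Pool.Agent.TH504.VL
open Pool.Agent.N995 (Isg)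
open Pool.Agent.N178.HX Pool.Agent.N178.HW
open Pool.Agent.N178.HX.POW (factor_isg)

noncomputable section

/-- **The simple factors of an abelian variety with many independent periods**: they are factors of
one abelian variety of dimension at most `ρ`, or they have no complex multiplication and their Hodge
group is the Lefschetz group. -/
theorem factors_many {G : ℕ} {Z : Matrix (Fin G) (Fin G) ℂ} (h : PM Z) {ρ : ℕ}
    (hm : ManyPeriods ρ Z) : ∃ B : AV, finrank ℚ B.H ≤ 2 * ρ ∧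
      ∀ X, IsFactor X (AVZ h) → IsFactor X B ∨
        (¬ HasCMult X ∧ FullHodge X ∧ ∀ d, ¬ Unbalanced X d) := by
  classical
  have hrk : ∀ {a : ℕ} {Z' : Matrix (Fin a) (Fin a) ℂ} (h' : PM Z'), finrank ℚ (AVZ h').H = 2 * a := by
    intro a Z' h'
    change finrank ℚ (Fin a ⊕ Fin a → ℚ) = 2 * a
    rw [finrank_fintype_fun_eq_card, Fintype.card_sum, Fintype.card_fin]
    ring
  rcases hm with hm | ⟨D, p, hp, hb1, hb2⟩
  · exact ⟨AVZ h, by rw [hrk]; omega, fun X hX => Or.inl hX⟩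
  obtain ⟨ι, hι, hι', d, Y, E, F, h1, h2, h3, h4, h5, h6, h7, h8⟩ :=
    decomposes G G Z le_rfl h.symm h.pos
  have hd : Dec Z Y E F := ⟨h.symm, h.pos, h1, h2, h3, h4, h5, h6, h7, h8⟩
  choose δ hδK hδ using fun s : Fin D =>
    exists_derivationK hp (fun t => if t = s then (1 : ℂ) else 0)
  have hinj : Function.Injective (LinearMap.pi fun i => derL Y δ i) := by
    rw [← LinearMap.ker_eq_bot, LinearMap.ker_eq_bot']
    intro c hc
    have h9 : ∀ i, (Y i).map (comb δ c) = 0 := by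
      intro i
      rw [map_comb]
      exact congrFun hc i
    have h10 := map_der_eq_zero hd.unit hd.unitY hd.tot (fun i => (hd.EJ i).symm) hd.FJ _ h9
    funext t
    have h11 := congrFun (congrFun h10 (p t).1) (p t).2
    rw [Matrix.map_apply, comb_apply, Finset.sum_eq_single t] at h11
    · rw [hδ t t, if_pos rfl, mul_one] at h11
      exact h11
    · intro s _ hs
      rw [hδ s t, if_neg (Ne.symm hs), mul_zero]
    · intro h
      exact absurd (Finset.mem_univ _) h
  obtain ⟨R, hR1, hR4⟩ := main_der' h1 h2 h3 δ hinj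
  have hB : PM (bigD ℂ fun i : {i // i ∈ R} => Y i.1) :=
    ⟨bigD_symm fun i => h1 i.1, imM_bigD_posDef _ fun i => h2 i.1⟩
  have dB := dec_big (Y := fun i : {i // i ∈ R} => Y i.1) (fun i => h1 i.1) (fun i => h2 i.1)
    (fun i => h3 i.1) (fun i => h8 i.1)
  have hr : NB (fun i : {i // i ∈ R} => d i.1) = ∑ i ∈ R, d i := by
    unfold NB
    rw [Fintype.card_sigma]
    simp only [Fintype.card_fin]
    exact Finset.sum_coe_sort R d
  refine ⟨AVZ hB, ?_, fun X hX => ?_⟩
  · rw [hrk, hr]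
    have h9 := hR1 ρ
    rw [hd.sum_g, Fintype.card_fin] at h9
    have := h9 hb1 hb2
    omega
  · obtain ⟨i, hi⟩ := factor_dec h hd hX
    by_cases hiR : i ∈ R
    · left
      exact factor_isg hX.1 hi (dec_factor hB dB ⟨i, hiR⟩)
    · right
      exact typ_isg hi.symm (typ_of_pcs (dec_pm hd i) (h3 i) (h8 i) (hR4 i hiR).1)

/-- **The generalized Hodge conjecture**, for factors of an abelian variety of dimension at most three
and factors without complex multiplication which have dimension at most three or whose Hodge group is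
the Lefschetz group. -/
theorem ghc_core (B : AV) (hB : finrank ℚ B.H ≤ 6) (X : AV)
    (hX : ∀ Y, IsFactor Y X → IsFactor Y B ∨
      (¬ HasCMult Y ∧ (finrank ℚ Y.H ≤ 6 ∨ FullHodge Y) ∧ ∀ d, ¬ Unbalanced Y d)) (𝒜 : Sys) :
    GHC 𝒜 X := by
  obtain ⟨K, _, T, hT, h⟩ := t_POW B hB
  refine uncond' t_MAINT t_COV T (fun _ : K => ()) (fun τ => ⟨τ (), fun _ _ => rfl⟩)
    (fun j => Or.inr (Or.inr ⟨Finset.univ, fun k => ?_, hT⟩)) 𝒜 X fun Y hY => ?_
  · exact ⟨fun _ => rfl, fun _ => Finset.mem_univ k⟩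
  · rcases hX Y hY with h1 | ⟨h2, h3, h4⟩
    · refine h Y (fun Y' hY' => ?_) Y ⟨hY.1, LinearMap.id, ⟨LinearMap.id, fun v => rfl⟩,
        fun _ _ hxy => hxy⟩
      obtain ⟨hs, i, hi, hinj⟩ := hY'
      obtain ⟨-, j, hj, hjinj⟩ := h1
      exact ⟨hs, j.comp i, IsHom.comp' hj hi, hjinj.comp hinj⟩
    · refine Or.inr ⟨h2, ?_, fun d hd => absurd hd (h4 d)⟩
      rcases h3 with h3 | h3
      · exact Or.inl h3
      · exact Or.inr (Or.inr (Or.inr (Or.inr h3)))

/-- **The generalized Hodge conjecture for abelian varieties with many independent periods.** -/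
theorem ghc_many {G : ℕ} {Z : Matrix (Fin G) (Fin G) ℂ} (h : PM Z) (hm : ManyPeriods 3 Z) (X : AV)
    (hX : ∀ Y, IsFactor Y X → IsFactor Y (AVZ h) ∨ FromManyPeriods 0 Y ∨
      (¬ HasCMult Y ∧ finrank ℚ Y.H ≤ 6 ∧ ∀ d, ¬ Unbalanced Y d)) (𝒜 : Sys) : GHC 𝒜 X := by
  obtain ⟨B, hB, hfac⟩ := factors_many h hm
  refine ghc_core B (by omega) X (fun Y hY => ?_) 𝒜
  rcases hX Y hY with h1 | ⟨g, Z', h', hm', h1⟩ | ⟨h1, h2, h3⟩
  · exact (hfac Y h1).imp id fun ⟨a, b, c⟩ => ⟨a, Or.inr b, c⟩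
  · obtain ⟨B', hB', hfac'⟩ := factors_many h' hm'
    rcases hfac' Y h1 with ⟨hs, i, -, hinj⟩ | h2
    · exfalso
      obtain ⟨y, hy⟩ := hs.1
      have h3 : finrank ℚ B'.H = 0 := by omega
      have := B'.finH
      have h4 : Subsingleton B'.H := finrank_zero_iff.1 h3
      exact hy (hinj (Subsingleton.elim _ _))
    · exact Or.inr ⟨h2.1, Or.inr h2.2.1, h2.2.2⟩
  · exact Or.inr ⟨h1, Or.inl h2, h3⟩

end

end Pool.Agent.U228.MP
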