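import Pool.Agent.Y90.Pie3
import Pool.Agent.W437.HR.Pcs
import Pool.Agent.W437.HP.Ideal

/-!
# The Lie algebra generated by the conjugates of the complex structure is an ideal

`LZ Z` is the complex Lie algebra generated by the conjugates of the complex structure of the abelian
variety with period matrix `Z`, and `lieM (DZ Z) ℂ` is the Lie algebra of all matrices which kill all
rational forms killed by the complex structure. We show that the first one is an ideal of the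
second one.
-/

set_option autoImplicit false
set_option linter.unusedSectionVars false

namespace Pool.Agent.U228.MP

open Matrix Module Pool.Agent.W437.HC Pool.Agent.W437.HD Pool.Agent.W437.HP
  Pool.Agent.W548.Odd Pool.Agent.Y90

noncomputable section

variable {g : ℕ} {Z : Matrix (Fin g) (Fin g) ℂ}

theorem cK_add {m n : Type*} (M N : Matrix m n ℚ) : cK ℂ (M + N) = cK ℂ M + cK ℂ N := by
  ext i j
  simp [cK]

theorem cK_sub {m n : Type*} (M N : Matrix m n ℚ) : cK ℂ (M - N) = cK ℂ M - cK ℂ N := by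
  ext i j
  simp [cK]

theorem cK_smul {m n : Type*} (a : ℚ) (M : Matrix m n ℚ) : cK ℂ (a • M) = (a : ℂ) • cK ℂ M := by
  ext i j
  simp [cK]

theorem cK_inj {m n : Type*} {M : Matrix m n ℚ} (h : cK ℂ M = 0) : M = 0 := by
  ext i j
  have h1 := congrFun (congrFun h i) j
  simpa [cK] using h1

/-- the rational points of the Lie algebra -/
def LQ (Z : Matrix (Fin g) (Fin g) ℂ) :
    Submodule ℚ (Matrix (Fin g ⊕ Fin g) (Fin g ⊕ Fin g) ℚ) where
  carrier := {X | cK ℂ X ∈ LZ Z}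
  zero_mem' := by
    change cK ℂ 0 ∈ LZ Z
    rw [cK_zero]
    exact Submodule.zero_mem _
  add_mem' := by
    intro a b ha hb
    change cK ℂ (a + b) ∈ LZ Z
    rw [cK_add]
    exact Submodule.add_mem _ ha hb
  smul_mem' := by
    intro c a ha
    change cK ℂ (c • a) ∈ LZ Z
    rw [cK_smul]
    exact Submodule.smul_mem _ _ ha

theorem mem_LQ {X : Matrix (Fin g ⊕ Fin g) (Fin g ⊕ Fin g) ℚ} : X ∈ LQ Z ↔ cK ℂ X ∈ LZ Z :=
  Iff.rfl

theorem LQ_br {X Y : Matrix (Fin g ⊕ Fin g) (Fin g ⊕ Fin g) ℚ} (hX : X ∈ LQ Z) (hY : Y ∈ LQ Z) :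
    X * Y - Y * X ∈ LQ Z := by
  rw [mem_LQ, cK_sub, cK_mul, cK_mul]
  exact LZ_br hX hY

theorem LQ_nd (h : PM Z) {X : Matrix (Fin g ⊕ Fin g) (Fin g ⊕ Fin g) ℚ} (hX : X ∈ LQ Z)
    (h0 : ∀ Y ∈ LQ Z, trace (X * Y) = 0) : X = 0 := by
  obtain ⟨S, Si, H⟩ := hermZ h.isPer (Set.mem_singleton Z)
  rw [← img_eq] at H
  apply cK_inj
  refine H.nondeg hX ?_
  refine rational_induction (LZ Z) (fun σ X hX => gal_LZ σ X hX) (p := fun Y =>
    trace (cK ℂ X * Y) = 0) ?_ ?_ ?_ ?_
  · intro u hu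
    have h1 := h0 u hu
    have h2 : trace (cK ℂ X * u.map (fun x : ℚ => (x : ℂ))) = ((trace (X * u) : ℚ) : ℂ) := by
      change trace (cK ℂ X * cK ℂ u) = _
      rw [← cK_mul]
      simp [Matrix.trace, cK]
    rw [h2, h1, Rat.cast_zero]
  · rw [Matrix.mul_zero, trace_zero]
  · intro A B hA hB
    rw [Matrix.mul_add, trace_add, hA, hB, add_zero]
  · intro c A hA
    rw [Matrix.mul_smul, trace_smul, hA, smul_zero]

/-- The rational Lie algebra is an ideal. -/
theorem ideal_rat (h : PM Z) {Y X : Matrix (Fin g ⊕ Fin g) (Fin g ⊕ Fin g) ℚ}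
    (hY : Y ∈ lieM (DZ Z) ℚ) (hX : X ∈ LQ Z) : Y * X - X * Y ∈ LQ Z := by
  obtain ⟨p, hp1, hp2, hp3⟩ := exists_proj (LQ Z) (fun X hX Y hY => LQ_br hX hY)
    (fun X hX h0 => LQ_nd h hX h0)
  have hsp : ∀ X ∈ LQ Z, Xᵀ * Om g ℚ + Om g ℚ * X = 0 := by
    intro X hX
    apply cK_inj
    have h1 := h.sp hX
    have h2 : cK ℂ (Om g ℚ) = Om g ℂ := by
      ext i j
      rcases i with i | i <;> rcases j with j | j <;> simp [cK, Om, Matrix.one_apply, apply_ite]
    rw [cK_add, cK_mul, cK_mul, cK_transpose, h2]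
    exact h1
  have hkill : ∀ X ∈ LQ Z, act X (theta p (Om g ℚ)) = 0 := fun X hX =>
    act_theta_eq_zero (hsp X hX) (hp3 X hX)
  have hH : IsH (DZ Z) (theta p (Om g ℚ)) := by
    funext I
    apply eq_zero_of_lam
    intro lam
    rw [lam_act, hkill _ ?_]
    · rfl
    · rw [mem_LQ]
      have h1 := map_mem (Z := Z) ((Algebra.linearMap ℚ ℂ).comp lam)
      have h2 : (DZ Z).map ((Algebra.linearMap ℚ ℂ).comp lam) = cK ℂ ((DZ Z).map lam) := by
        ext i j
        simp [cK]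
      rwa [h2] at h1
  have hspY : Yᵀ * Om g ℚ + Om g ℚ * Y = 0 := by
    have hb : IsH (DZ Z) (bilc (Om g ℚ)) := by
      refine isH_bilc _ ?_
      have h2 : (Om g ℚ).map (fun x : ℚ => (x : ℂ)) = Om g ℂ := by
        ext i j
        rcases i with i | i <;> rcases j with j | j <;> simp [Om, Matrix.one_apply, apply_ite]
      rw [h2]
      exact h.sp DZ_mem
    have h3 := lieM_bil _ hb hY
    change Yᵀ * cK ℚ (Om g ℚ) + cK ℚ (Om g ℚ) * Y = 0 at h3
    rwa [cK_rat] at h3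
  have h1 : act Y (theta p (Om g ℚ)) = 0 := by
    have h2 := lieM_kills (DZ Z) hY hH
    have h3 : cst ℚ (theta p (Om g ℚ)) = theta p (Om g ℚ) := by
      funext J
      simp [cst]
    rwa [h3] at h2
  have hu : IsUnit (Om g ℚ) := by
    refine ⟨⟨Om g ℚ, -Om g ℚ, ?_, ?_⟩, rfl⟩
    · rw [Matrix.mul_neg, Om_sq, neg_neg]
    · rw [Matrix.neg_mul, Om_sq, neg_neg]
  have h2 := comm_of_act hu hspY h1 X
  rw [hp2 X hX] at h2
  rw [← h2]
  exact hp1 _

/-- **The Lie algebra generated by the conjugates of the complex structure is an ideal.** -/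
theorem ideal_LZ (h : PM Z) {Y X : Matrix (Fin g ⊕ Fin g) (Fin g ⊕ Fin g) ℂ}
    (hY : Y ∈ lieM (DZ Z) ℂ) (hX : X ∈ LZ Z) : Y * X - X * Y ∈ LZ Z := by
  have hY' := mem_span_rat hY
  clear hY
  induction hY' using Submodule.span_induction with
  | mem Y hY =>
    obtain ⟨Y, hY, rfl⟩ := hY
    refine rational_induction (LZ Z) (fun σ X hX => gal_LZ σ X hX) (p := fun X =>
      cK ℂ Y * X - X * cK ℂ Y ∈ LZ Z) ?_ ?_ ?_ ?_ X hX
    · intro u hu
      have h1 := ideal_rat h hY (X := u) hu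
      rw [mem_LQ, cK_sub, cK_mul, cK_mul] at h1
      exact h1
    · rw [Matrix.mul_zero, Matrix.zero_mul, sub_zero]
      exact Submodule.zero_mem _
    · intro A B hA hB
      have h3 : cK ℂ Y * (A + B) - (A + B) * cK ℂ Y =
        (cK ℂ Y * A - A * cK ℂ Y) + (cK ℂ Y * B - B * cK ℂ Y) := by noncomm_ring
      rw [h3]
      exact Submodule.add_mem _ hA hB
    · intro c A hA
      rw [Matrix.mul_smul, Matrix.smul_mul, ← smul_sub]
      exact Submodule.smul_mem _ _ hA
  | zero =>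
    rw [Matrix.mul_zero, Matrix.zero_mul, sub_zero]
    exact Submodule.zero_mem _
  | add Y Y' _ _ h1 h2 =>
    have h3 : (Y + Y') * X - X * (Y + Y') = (Y * X - X * Y) + (Y' * X - X * Y') := by
      noncomm_ring
    rw [h3]
    exact Submodule.add_mem _ h1 h2
  | smul a Y _ h1 =>
    rw [Matrix.mul_smul, Matrix.smul_mul, ← smul_sub]
    exact Submodule.smul_mem _ _ h1

theorem LZ_le_lieM : LZ Z ≤ lieM (DZ Z) ℂ :=
  LA_le_lieM (by
    intro d hd
    rw [Set.mem_singleton_iff.1 hd]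
    exact D_mem (DZ Z))

end

end Pool.Agent.U228.MP
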